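import Pool.Agent.Lib.MP_1e63be_al.Z41.Elim

/-!
The Ziegler spectrum of a simple regular ring, read off from its uniform cyclic modules.
-/

namespace Pool.Agent.Lib.MP_1e63be_al.Z41V

open Function Pool.Agent.Lib.MP_1e63be_al.Z41

variable {S : Type} [Ring S] {E : Type} [AddCommGroup E] [Module S E]

/-- `C` is maximal among the submodules disjoint from `B`. -/
def Mx (C B : Submodule S E) : Prop :=
  Disjoint C B ∧ ∀ y ∉ C, ∃ s : S, ∃ c ∈ C, s • y + c ∈ B ∧ s • y + c ≠ 0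

theorem Mx.mono {C B D : Submodule S E} (h : Mx C B) (k : B ≤ D) (l : Disjoint C D) : Mx C D :=
  ⟨l, fun y hy => (h.2 y hy).imp fun _ ⟨c, h1, h2, h3⟩ => ⟨c, h1, k h2, h3⟩⟩

theorem exists_mx {A B : Submodule S E} (h : Disjoint A B) : ∃ C, A ≤ C ∧ Mx C B := by
  obtain ⟨C, h1, h2⟩ := zorn_le_nonempty₀ {C : Submodule S E | Disjoint C B}
    (fun c hc k y hy => ⟨sSup c, Submodule.disjoint_def.2 fun x h1 h2 => by
      obtain ⟨D, h3, h4⟩ := (Submodule.mem_sSup_of_directed ⟨y, hy⟩ k.directedOn).1 h1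
      exact Submodule.disjoint_def.1 (hc h3) x h4 h2, fun z hz => le_sSup hz⟩) A h
  refine ⟨C, h1, h2.1, fun y hy => by_contra fun l => hy ?_⟩
  refine h2.2 (y := Submodule.span S {y} ⊔ C) (Submodule.disjoint_def.2 fun x h3 h4 => ?_)
    le_sup_right (Submodule.mem_sup_left (Submodule.mem_span_singleton_self y))
  obtain ⟨a, h5, c, h6, rfl⟩ := Submodule.mem_sup.1 h3
  obtain ⟨s, rfl⟩ := Submodule.mem_span_singleton.1 h5
  exact by_contra fun e => l ⟨s, c, h6, h4, e⟩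

theorem inj_ext (hN : Module.Injective S E) {A B : Type} [AddCommGroup A] [Module S A]
    [AddCommGroup B] [Module S B] (f : A →ₗ[S] B) (g : A →ₗ[S] E)
    (k : ∀ a, f a = 0 → g a = 0) : ∃ h : B →ₗ[S] E, ∀ a, h (f a) = g a := by
  let g' : LinearMap.range f →ₗ[S] E := (LinearMap.ker f).liftQ g k ∘ₗ f.quotKerEquivRange.symm
  have h2 : ∀ a, g' ⟨f a, a, rfl⟩ = g a := fun a => by
    exact congrArg ((LinearMap.ker f).liftQ g k) (f.quotKerEquivRange_symm_apply_image a _)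
  obtain ⟨h, h4⟩ := hN.out (LinearMap.range f).subtype Subtype.val_injective g'
  exact ⟨h, fun a => (h4 ⟨f a, a, rfl⟩).trans (h2 a)⟩

theorem inj_split (hN : Module.Injective S E) {C D : Submodule S E} (h1 : Mx C D) (h2 : Mx D C) :
    IsCompl C D := by
  obtain ⟨h, h3⟩ := inj_ext hN (C.subtype.coprod D.subtype)
    (C.subtype ∘ₗ LinearMap.fst S C D) fun a k =>
      Submodule.disjoint_def.1 h1.1 _ a.1.2 ((eq_neg_of_add_eq_zero_left k).symm ▸ D.neg_mem a.2.2 :)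
  have e1 : ∀ c ∈ C, h c = c := fun c k => by simpa using h3 (⟨c, k⟩, 0)
  have e2 : ∀ d ∈ D, h d = 0 := fun d k => by simpa using h3 (0, ⟨d, k⟩)
  have e3 : ∀ e, h e = 0 → e ∈ D := fun e k => by_contra fun l => by
    obtain ⟨s, d, a1, a2, a3⟩ := h2.2 e l
    exact a3 (by rw [← e1 _ a2, map_add, e2 d a1, add_zero, map_smul, k, smul_zero])
  have e4 : ∀ e, h e ∈ C := fun e => by_contra fun l => by
    obtain ⟨r, c, a1, a2, a3⟩ := h1.2 _ l
    have : h (r • e + c) = r • h e + c := by rw [map_add, map_smul, e1 c a1]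
    obtain ⟨s, d, b1, b2, b3⟩ := h2.2 (r • e + c) fun k => a3 (this ▸ e2 _ k)
    refine b3 (Submodule.disjoint_def.1 h1.1 _ b2 ?_)
    rw [← e1 _ b2, map_add, e2 d b1, add_zero, map_smul, this]
    exact D.smul_mem s a2
  refine ⟨h1.1, Submodule.codisjoint_iff_exists_add_eq.2 fun e =>
    ⟨h e, e - h e, e4 e, e3 _ ?_, by simp⟩⟩
  rw [map_sub, e1 _ (e4 e), sub_self]

theorem inj_of_pure (hS : Reg S) (h : IsPureInj S E) : Module.Injective S E :=
  ⟨fun A B _ _ _ _ f hf g => (h A B f (hS.pure hf) g).imp fun _ k a => LinearMap.congr_fun k a⟩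

theorem pure_of_inj (h : Module.Injective S E) : IsPureInj S E := fun _ _ _ _ _ _ f hf g =>
  (h.out f hf.1 g).imp fun _ k => LinearMap.ext k

/-- Uniform modules. -/
def UnifM (S E : Type) [Ring S] [AddCommGroup E] [Module S E] : Prop :=
  ∀ x y : E, x ≠ 0 → y ≠ 0 → ∃ r s : S, r • x = s • y ∧ r • x ≠ 0

theorem unif_of_indec (h1 : IsIndec S E) (h2 : Module.Injective S E) : UnifM S E := by
  intro x y hx hy
  by_contra k
  obtain ⟨C, a2, a3⟩ := exists_mx (A := Submodule.span S {x}) (B := Submodule.span S {y})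
    (Submodule.disjoint_def.2 fun z b1 b2 => by
      obtain ⟨r, rfl⟩ := Submodule.mem_span_singleton.1 b1
      obtain ⟨s, b3⟩ := Submodule.mem_span_singleton.1 b2
      exact by_contra fun l => k ⟨r, s, b3.symm, l⟩)
  obtain ⟨D, b2, b3⟩ := exists_mx a3.1.symm
  rcases h1.2 C D (inj_split h2 (a3.mono b2 b3.1.symm) b3) with rfl | rfl
  · exact hx (a2 (Submodule.mem_span_singleton_self x))
  · exact hy (b2 (Submodule.mem_span_singleton_self y))

/-- The annihilator of an element. -/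
def ann (S : Type) [Ring S] {E : Type} [AddCommGroup E] [Module S E] (x : E) : Ideal S :=
  LinearMap.ker (LinearMap.toSpanSingleton S E x)

theorem mem_ann {x : E} {r : S} : r ∈ ann S x ↔ r • x = 0 := Iff.rfl

theorem ann_ne {x : E} (h : x ≠ 0) : ann S x ≠ ⊤ := fun e =>
  h ((one_smul S x).symm.trans (mem_ann.1 (e ▸ trivial)))

theorem UnifM.unif (h : UnifM S E) (x : E) : Unif (ann S x) := fun a ha b hb => by
  obtain ⟨r, s, e, l⟩ := h (a • x) (b • x) ha hb
  exact ⟨r, s, show (r * a - s * b) • x = 0 by rw [sub_smul, mul_smul, mul_smul, e, sub_self],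
    fun e' => l ((mul_smul r a x).symm.trans e')⟩

theorem iso_of_ann {E' : Type} [AddCommGroup E'] [Module S E'] (h : Module.Injective S E)
    (h' : Module.Injective S E') (u : UnifM S E) (u' : UnifM S E') {x : E} {x' : E'}
    (hx : x ≠ 0) (k : ∀ r : S, r • x = 0 ↔ r • x' = 0) : Nonempty (E ≃ₗ[S] E') := by
  obtain ⟨f, a2⟩ := inj_ext h' (LinearMap.toSpanSingleton S _ x)
    (LinearMap.toSpanSingleton S _ x') fun r l => (k r).1 l
  have a3 : f x = x' := by simpa using a2 1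
  have hx' : x' ≠ 0 := fun e => hx (by simpa [e] using k 1)
  have a4 : ∀ y, f y = 0 → y = 0 := fun y l => by_contra fun e => by
    obtain ⟨r, s, b1, b2⟩ := u x y hx e
    exact b2 ((k r).2 (by rw [← a3, ← map_smul, b1, map_smul, l, smul_zero]))
  obtain ⟨g, b2⟩ := inj_ext h f LinearMap.id a4
  refine ⟨LinearEquiv.ofBijective f ⟨(injective_iff_map_eq_zero f).2 a4, fun w =>
    ⟨g w, sub_eq_zero.1 (by_contra fun e => ?_)⟩⟩⟩
  obtain ⟨r, s, c1, c2⟩ := u' x' _ hx' e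
  refine c2 ((k r).1 ?_)
  rw [← show g (f (r • x)) = r • x from b2 _, map_smul, a3, c1, map_smul, map_sub, b2,
    LinearMap.id_apply, sub_self, smul_zero]

theorem hull_of_inj (hj : Module.Injective S E) {x : E} (h1 : x ≠ 0) (h2 : Unif (ann S x)) :
    ∃ N : ZgMod S, ∃ y : N.carrier, ann S y = ann S x := by
  obtain ⟨D, -, a3⟩ := exists_mx (A := ⊥) (B := Submodule.span S {x}) disjoint_bot_left
  obtain ⟨C, b2, b3⟩ := exists_mx a3.1.symm
  have c := inj_split hj b3 (a3.mono b2 b3.1.symm)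
  have hx := b2 (Submodule.mem_span_singleton_self x)
  have k : ∀ y : C, y ≠ 0 → ∃ s r : S, s • y.1 = r • x ∧ r • x ≠ 0 := fun y hy => by
    obtain ⟨s, d, d1, d2, d3⟩ := a3.2 y.1 fun e =>
      hy (Subtype.ext (Submodule.disjoint_def.1 b3.1 _ y.2 e))
    obtain rfl : d = 0 := Submodule.disjoint_def.1 b3.1 _
      ((C.add_mem_iff_right (C.smul_mem s y.2)).1 (b2 d2)) d1
    obtain ⟨r, d4⟩ := Submodule.mem_span_singleton.1 d2
    exact ⟨s, r, by simpa using d4.symm, d4 ▸ d3⟩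
  refine ⟨⟨ModuleCat.of S C, ⟨⟨⟨x, hx⟩, 0, fun e => h1 (congrArg Subtype.val e)⟩,
    fun A B hAB => by_contra fun l => ?_⟩, pure_of_inj ⟨fun A B _ _ _ _ f hf g => ?_⟩⟩,
    ⟨x, hx⟩, Ideal.ext fun r => Subtype.ext_iff⟩
  · rw [not_or] at l
    obtain ⟨a, d1, d2⟩ := Submodule.exists_mem_ne_zero_of_ne_bot l.1
    obtain ⟨b, d3, d4⟩ := Submodule.exists_mem_ne_zero_of_ne_bot l.2
    obtain ⟨s, r, e1, e2⟩ := k a d2
    obtain ⟨t, q, e3, e4⟩ := k b d4
    obtain ⟨v, w, e5, e6⟩ := h2 r e2 q e4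
    have e7 : v • s • a = w • t • b := Subtype.ext (by
      have : (v * r - w * q) • x = 0 := e5
      rw [sub_smul, sub_eq_zero, mul_smul, mul_smul, ← e1, ← e3] at this
      exact this)
    refine e6 (show (v * r) • x = 0 from ?_)
    rw [mul_smul, ← e1]
    exact congrArg Subtype.val (Submodule.disjoint_def.1 hAB.1 (v • s • a)
      (A.smul_mem v (A.smul_mem s d1)) (e7 ▸ B.smul_mem w (B.smul_mem t d3)))
  · obtain ⟨h, d2⟩ := hj.out f hf (C.subtype ∘ₗ g)
    exact ⟨C.projectionOnto D c ∘ₗ h, fun a => by simp [d2]⟩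

theorem hull {J : Ideal S} (h1 : J ≠ ⊤) (h2 : Unif J) :
    ∃ N : ZgMod S, ∃ y : N.carrier, ann S y = J := by
  obtain ⟨P⟩ := CategoryTheory.EnoughInjectives.presentation (ModuleCat.of S (S ⧸ J))
  have a1 : Injective P.f.hom := (ModuleCat.mono_iff_injective _).1 P.mono
  have a2 : ann S (P.f.hom (Submodule.Quotient.mk 1)) = J := Ideal.ext fun r => by
    rw [mem_ann, ← map_smul, map_eq_zero_iff _ a1, ← Submodule.Quotient.mk_smul,
      Submodule.Quotient.mk_eq_zero, smul_eq_mul, mul_one]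
  have := P.injective
  obtain ⟨N, y, e⟩ := hull_of_inj (Module.injective_module_of_injective_object S P.J)
    (x := P.f.hom (Submodule.Quotient.mk 1))
    (fun e => h1 ((Ideal.eq_top_iff_one _).2 (a2 ▸ mem_ann.2 (by rw [e, smul_zero]))))
    (a2.symm ▸ h2 :)
  exact ⟨N, y, e.trans a2⟩

theorem unif_of_max {I : Ideal S} (hI : I.IsMaximal) : Unif I := fun a ha b hb => by
  obtain ⟨y, c, h1, h2⟩ := hI.exists_inv ha
  obtain ⟨z, d, h3, h4⟩ := hI.exists_inv hb
  refine ⟨y, z, ?_, fun e => hI.ne_top ((Ideal.eq_top_iff_one _).2 (h2 ▸ I.add_mem e h1))⟩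
  rw [eq_sub_of_add_eq h2, eq_sub_of_add_eq h4, sub_sub_sub_cancel_left]
  exact I.sub_mem h3 h1

/-- The modules `S / J` and `S / K` have isomorphic nonzero submodules. -/
def Link (J K : Ideal S) : Prop := ∃ a ∉ J, ∃ b, ∀ r, r * a ∈ J ↔ r * b ∈ K

theorem zg_zero [Nontrivial S] (hS : Reg S)
    (h : ∀ J K : Ideal S, J ≠ ⊤ → K ≠ ⊤ → Unif J → Unif K → Link J K) :
    HasCBRank (Zg S) 0 ∧ Subsingleton (Zg S) := by
  obtain ⟨I, hI⟩ := Ideal.exists_maximal S
  obtain ⟨N, -⟩ := hull hI.ne_top (unif_of_max hI)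
  have : Nonempty (Zg S) := ⟨Quotient.mk _ N⟩
  have : Subsingleton (Zg S) := ⟨by
    rintro ⟨A⟩ ⟨B⟩
    have a1 := inj_of_pure hS A.pinj
    have b1 := inj_of_pure hS B.pinj
    have a2 := unif_of_indec A.indec a1
    have b2 := unif_of_indec B.indec b1
    have := A.indec.1
    have := B.indec.1
    obtain ⟨x, hx⟩ := exists_ne (0 : A.carrier)
    obtain ⟨y, hy⟩ := exists_ne (0 : B.carrier)
    obtain ⟨a, c1, b, c2⟩ := h _ _ (ann_ne hx) (ann_ne hy) (a2.unif x) (b2.unif y)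
    exact Quotient.sound (iso_of_ann a1 b1 a2 b2 (x := a • x) (x' := b • y) c1 fun r => by
      simpa only [mem_ann, mul_smul] using c2 r)⟩
  exact ⟨cb_zero, this⟩

theorem basic [IsSimpleRing S] (h : Reg S) (φ ψ : PPCond S) :
    ∃ p : Prop, ∀ (N : Type) [AddCommGroup N] [Module S N] [Nontrivial N],
      φ.eval N ⊆ ψ.eval N ↔ p := by
  obtain ⟨e, he⟩ := h.eval φ
  obtain ⟨f, hf⟩ := h.eval ψ
  obtain ⟨e', he'⟩ := h e
  refine ⟨f * (1 - e' * e) = 0, fun N _ _ _ => ?_⟩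
  rw [he, hf]
  refine ⟨fun k => ?_, fun k x hx => ?_⟩
  · have : Nontrivial (AddMonoid.End N) := ⟨1, 0, fun l => by
      obtain ⟨w, hw⟩ := exists_ne (0 : N)
      exact hw (DFunLike.congr_fun l w)⟩
    refine (Module.toAddMonoidEnd S N).injective (AddMonoidHom.ext fun w => ?_)
    change (f * (1 - e' * e)) • w = (0 : S) • w
    rw [mul_smul, zero_smul]
    refine k (show e • _ = 0 from ?_)
    rw [smul_smul, mul_sub, mul_one, ← mul_assoc, he', sub_self, zero_smul]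
  · have : (f * (1 - e' * e)) • x = 0 := by rw [k, zero_smul]
    rwa [mul_smul, sub_smul, one_smul, mul_smul, show e • x = 0 from hx, smul_zero,
      sub_zero] at this

theorem zg_top [IsSimpleRing S] (hS : Reg S) {J K : Ideal S} (j1 : J ≠ ⊤) (k1 : K ≠ ⊤)
    (j2 : Unif J) (k2 : Unif K) (h : ¬ Link J K) : HasCBRank (Zg S) ⊤ ∧ Nontrivial (Zg S) ∧
      ∀ U : Set (Zg S), IsOpen U → U = ∅ ∨ U = Set.univ := by
  obtain ⟨A, x, rfl⟩ := hull j1 j2
  obtain ⟨B, y, rfl⟩ := hull k1 k2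
  have : Nontrivial (Zg S) := ⟨Quotient.mk _ A, Quotient.mk _ B, fun e => by
    obtain ⟨e⟩ := Quotient.exact e
    obtain ⟨a, b, c1, c2⟩ := unif_of_indec B.indec (inj_of_pure hS B.pinj) (e x) y
      (fun l => j1 (by rw [e.map_eq_zero_iff.1 l]; exact eq_top_iff.2 fun r _ => smul_zero r))
      (fun l => k1 (by rw [l]; exact eq_top_iff.2 fun r _ => smul_zero r))
    refine h ⟨a, fun l => c2 (by rw [← map_smul, mem_ann.1 l, map_zero]), b, fun r => ?_⟩
    rw [mem_ann, mem_ann, mul_smul, mul_smul, ← c1, ← map_smul, ← map_smul, e.map_eq_zero_iff]⟩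
  have key := cb_top (T := Zg S) (B := {U | ∃ φ ψ : PPCond S, U = basicOpen φ ψ}) (by
    rintro _ ⟨φ, ψ, rfl⟩
    obtain ⟨p, hp⟩ := basic hS φ ψ
    by_cases c : p
    · exact Or.inl (Set.eq_empty_of_forall_notMem fun _ ⟨N, _, e⟩ =>
        e ((@hp _ _ _ N.indec.1).2 c))
    · exact Or.inr (Set.eq_univ_of_forall (Quotient.ind fun N =>
        ⟨N, rfl, c ∘ (@hp _ _ _ N.indec.1).1⟩)))
  exact ⟨key.1, this, key.2⟩

end Pool.Agent.Lib.MP_1e63be_al.Z41V
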